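import Mathlib

set_option autoImplicit false

namespace Pool.Agent.W163.PSI

/-- an oriented graph: no loops, and at most one of the arcs `(x,y)`, `(y,x)` -/
def Oriented {V : Type} (D : V → V → Prop) : Prop := ∀ x y, D x y → ¬ D y x

/-- out-degree and in-degree -/
noncomputable def outdeg {V : Type} (D : V → V → Prop) (x : V) : ℕ := Set.ncard {y | D x y}
noncomputable def indeg {V : Type} (D : V → V → Prop) (x : V) : ℕ := Set.ncard {y | D y x}

/-- the minimum semi-degree of `D` is `d` -/
def MinSemi {V : Type} (D : V → V → Prop) (d : ℕ) : Prop :=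
  (∀ x, d ≤ outdeg D x ∧ d ≤ indeg D x) ∧ (∃ x, outdeg D x = d ∨ indeg D x = d)

/-- `D` contains a directed cycle of length three -/
def HasTriangle {V : Type} (D : V → V → Prop) : Prop := ∃ x y z, D x y ∧ D y z ∧ D z x

/-- there is a directed walk from `x` to `y` which avoids `S` (after `x`) -/
def Reach {V : Type} (D : V → V → Prop) (S : Set V) (x y : V) : Prop :=
  Relation.ReflTransGen (fun u v => D u v ∧ v ∉ S) x y

/-- `S` disconnects `D`: `D - S` is not strongly connected -/
def Disconnects {V : Type} (D : V → V → Prop) (S : Set V) : Prop :=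
  ∃ x y, x ∉ S ∧ y ∉ S ∧ ¬ Reach D S x y

/-- `ψ` is admissible for `r`: every oriented graph with minimum semi-degree `d ≥ 1`, at most
`r d` vertices and a disconnecting set with at most `ψ d` vertices contains a triangle -/
def Admissible (r ψ : ℝ) : Prop :=
  ∀ (V : Type) [Fintype V] (D : V → V → Prop) (d : ℕ), 1 ≤ d → Oriented D → MinSemi D d →
    (Fintype.card V : ℝ) ≤ r * d →
    (∃ S : Set V, Disconnects D S ∧ (S.ncard : ℝ) ≤ ψ * d) → HasTriangle D

/-- the threshold function `ψ(r)` -/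
noncomputable def psi (r : ℝ) : ℝ := sSup {ψ : ℝ | 0 < ψ ∧ ψ ≤ 1 ∧ Admissible r ψ}

/-- the semi-degree case of the Caccetta-Haggkvist conjecture for triangles: every digraph (2-cycles
allowed, no loops) with minimum semi-degree at least `n/3 > 0` contains a directed cycle of length
at most three -/
def CHsemi : Prop :=
  ∀ (V : Type) [Fintype V] [Nonempty V] (D : V → V → Prop), (∀ x, ¬ D x x) →
    (∀ x, Fintype.card V ≤ 3 * outdeg D x ∧ Fintype.card V ≤ 3 * indeg D x) →
    (∃ x y, D x y ∧ D y x) ∨ HasTriangle D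

/-- P1: the blow-up of the directed 4-cycle with circulant parts -/
def S_P1 : Prop := ∀ a b : ℕ, b ≤ a → ∃ (V : Type) (_ : Fintype V) (D : V → V → Prop),
  Oriented D ∧ MinSemi D (a + 3 * b + 1) ∧ Fintype.card V = 6 * a + 6 * b + 4 ∧
  (∃ S : Set V, Disconnects D S ∧ S.ncard = 3 * b + 1) ∧ ¬ HasTriangle D

/-- P2: the blow-up of the directed 4-cycle with four copies of one graph -/
def S_P2 : Prop := ∀ (V : Type) [Fintype V] [Nonempty V] (D : V → V → Prop) (d : ℕ), Oriented D →
  MinSemi D d → ¬ HasTriangle D → ∃ (W : Type) (_ : Fintype W) (E : W → W → Prop),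
  Oriented E ∧ MinSemi E (Fintype.card V + d) ∧ Fintype.card W = 4 * Fintype.card V ∧
  (∃ S : Set W, Disconnects E S ∧ S.ncard = Fintype.card V) ∧ ¬ HasTriangle E

/-- P3: conclusion -/
def S_P3 : Prop := S_P1 → S_P2 →
  (∀ r : ℝ, 3 < r → r < 6 → psi r ≤ (6 - r) / 4) ∧
  (CHsemi ↔ psi 3 = 1) ∧ (CHsemi ↔ 3 / 4 < psi 3)

end Pool.Agent.W163.PSI
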